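import Mathlib

/-!
# MP_d56d33_an : exponential stability does not imply `L₂`-stability

Scalar counterexample with a continuous nonlinearity: `p(s) = s - 1`, `q = 1`, `k = 1` and
`φ(x) = x (1 + g(x))`, `g(x) = √|sin (log |x|)| + |x| / (1 + |x|)`.
The unforced equation is `x' = - x g(x)`.
-/

namespace Pool.Agent.Results.MP_d56d33_an.NotEquivalent

open MeasureTheory Set Real
open scoped Matrix

/-! ### Definitions -/

/-- Companion matrix of `s^n + p_{n-1} s^{n-1} + ... + p_0`: ones on the superdiagonal, last row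
`(-p_0, ..., -p_{n-1})`. -/
def companion (n : ℕ) (p : Fin n → ℝ) : Matrix (Fin n) (Fin n) ℝ :=
  fun i j => if (i : ℕ) + 1 = n then -p j else if (j : ℕ) = (i : ℕ) + 1 then 1 else 0

/-- The vector `b = (0, ..., 0, 1)`. -/
def bvec (n : ℕ) : Fin n → ℝ := fun i => if (i : ℕ) + 1 = n then 1 else 0

/-- Right-hand side `A_o x - k(t) b φ(c^T x) + f(t) b`, where `c` is the vector `q`. -/
noncomputable def rhs {n : ℕ} (p q : Fin n → ℝ) (k φ f : ℝ → ℝ) (t : ℝ)
    (x : EuclideanSpace ℝ (Fin n)) : EuclideanSpace ℝ (Fin n) :=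
  WithLp.toLp 2 (companion n p *ᵥ x.ofLp - (k t * φ (q ⬝ᵥ x.ofLp)) • bvec n + f t • bvec n)

/-- `x` is a solution of the forced system on `[t₀, T)`. -/
def IsSol {n : ℕ} (p q : Fin n → ℝ) (k φ f : ℝ → ℝ) (t₀ : ℝ) (T : EReal)
    (x : ℝ → EuclideanSpace ℝ (Fin n)) : Prop :=
  (∀ t₁ : ℝ, t₀ < t₁ → (t₁ : EReal) < T →
    AbsolutelyContinuousOnInterval x t₀ t₁ ∧
      IntervalIntegrable (fun t => φ (q ⬝ᵥ (x t).ofLp)) volume t₀ t₁) ∧
  ∀ᵐ t : ℝ, t₀ < t → (t : EReal) < T → HasDerivAt x (rhs p q k φ f t (x t)) t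

/-- Admissible `k`: locally absolutely continuous on `[0, ∞)` and bounded below by a positive
constant. -/
def AdmissibleK (k : ℝ → ℝ) : Prop :=
  (∃ ε : ℝ, 0 < ε ∧ ∀ t, 0 ≤ t → ε ≤ k t) ∧
    ∀ t₁ : ℝ, 0 ≤ t₁ → AbsolutelyContinuousOnInterval k 0 t₁

/-- The sector condition on `φ`. -/
def Sector (φ : ℝ → ℝ) : Prop :=
  φ 0 = 0 ∧ ∃ η₁ η₂ : ℝ, 0 < η₁ ∧ η₁ < η₂ ∧
    ∀ σ : ℝ, σ ≠ 0 → η₁ * σ ^ 2 ≤ σ * φ σ ∧ σ * φ σ ≤ η₂ * σ ^ 2

/-- Exponential stability of the null solution of the unforced system. -/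
def ExpStable {n : ℕ} (p q : Fin n → ℝ) (k φ : ℝ → ℝ) : Prop :=
  ∃ ε₁ ε₂ : ℝ, 0 < ε₁ ∧ 0 < ε₂ ∧ ∀ (t₀ : ℝ) (T : EReal) (x : ℝ → EuclideanSpace ℝ (Fin n)),
    0 ≤ t₀ → (t₀ : EReal) < T → IsSol p q k φ (fun _ => 0) t₀ T x →
    ∀ t : ℝ, t₀ ≤ t → (t : EReal) < T → ‖x t‖ ≤ ε₂ * ‖x t₀‖ * Real.exp (-ε₁ * (t - t₀))

/-- `L₂`-stability of the forced system. -/
def L2Stable {n : ℕ} (p q : Fin n → ℝ) (k φ : ℝ → ℝ) : Prop :=
  ∀ η₁ η₂ : ℝ, 0 ≤ η₁ → 0 ≤ η₂ → ∃ η₃ : ℝ, ∀ (t₀ : ℝ) (T : EReal) (f : ℝ → ℝ)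
    (x : ℝ → EuclideanSpace ℝ (Fin n)),
    0 ≤ t₀ → (t₀ : EReal) < T → Measurable f → IsSol p q k φ f t₀ T x → ‖x t₀‖ < η₁ →
    ∫⁻ t in Ici (0 : ℝ), ENNReal.ofReal (f t ^ 2) < ENNReal.ofReal η₂ →
    ∫⁻ t in {t : ℝ | t₀ ≤ t ∧ (t : EReal) < T}, ENNReal.ofReal (‖x t‖ ^ 2) ≤ ENNReal.ofReal η₃

/-! ### The nonlinearity -/

/-- `G(s) = √|sin s| + e^s / (1 + e^s)`. -/
noncomputable def G (s : ℝ) : ℝ := √|sin s| + exp s / (1 + exp s)

/-- `g(x) = √|sin (log |x|)| + |x| / (1 + |x|)`. -/
noncomputable def g (x : ℝ) : ℝ := √|sin (log x)| + |x| / (1 + |x|)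

/-- `φ(x) = x (1 + g(x))`. -/
noncomputable def phi (x : ℝ) : ℝ := x * (1 + g x)

lemma G_pos (s : ℝ) : 0 < G s := by
  unfold G
  have := exp_pos s
  positivity

lemma G_cont : Continuous G := by
  unfold G
  have h : ∀ s : ℝ, 1 + exp s ≠ 0 := fun s => by have := exp_pos s; positivity
  fun_prop (disch := exact h _)

lemma g_eq (x : ℝ) (hx : x ≠ 0) : g x = G (log x) := by
  unfold g G
  rw [← Real.log_abs x, exp_log (abs_pos.2 hx)]

lemma g_nonneg (x : ℝ) : 0 ≤ g x := by
  unfold g
  positivity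

lemma g_le (x : ℝ) : g x ≤ 2 := by
  unfold g
  have h1 : √|sin (log x)| ≤ 1 :=
    Real.sqrt_le_iff.2 ⟨by norm_num, by simpa using abs_sin_le_one (log x)⟩
  have h2 : |x| / (1 + |x|) ≤ 1 := by
    rw [div_le_one (by positivity)]
    linarith
  linarith

lemma phi_cont : Continuous phi := by
  rw [continuous_iff_continuousAt]
  intro x
  by_cases hx : x = 0
  · subst hx
    have h0 : phi 0 = 0 := by simp [phi]
    rw [ContinuousAt, h0]
    have hb : ∀ y, |phi y| ≤ 3 * |y| := by
      intro y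
      unfold phi
      rw [abs_mul, abs_of_nonneg (by have := g_nonneg y; positivity : 0 ≤ 1 + g y), mul_comm]
      exact mul_le_mul_of_nonneg_right (by have := g_le y; linarith) (abs_nonneg y)
    apply squeeze_zero_norm (a := fun y => 3 * |y|)
    · intro y
      rw [Real.norm_eq_abs]
      exact hb y
    · have : Filter.Tendsto (fun y : ℝ => 3 * |y|) (nhds 0) (nhds (3 * |0|)) :=
        (continuous_const.mul continuous_abs).tendsto 0
      simpa using this
  · have h1 : ContinuousAt g x := by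
      unfold g
      have h2 : ContinuousAt log x := Real.continuousAt_log hx
      have h3 : 1 + |x| ≠ 0 := by positivity
      have h4 : ContinuousAt (fun x : ℝ => |x|) x := continuous_abs.continuousAt
      exact ((Real.continuous_sqrt.continuousAt.comp
        (continuous_abs.continuousAt.comp (Real.continuous_sin.continuousAt.comp h2)))).add
        (h4.div (continuousAt_const.add h4) h3)
    exact continuousAt_id.mul (continuousAt_const.add h1)

/-! ### The antiderivative of `1/G` -/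

/-- `Φ(s) = ∫₀ˢ 1/G`. -/
noncomputable def Phi (s : ℝ) : ℝ := ∫ r in (0 : ℝ)..s, 1 / G r

lemma invG_cont : Continuous fun r => 1 / G r :=
  continuous_const.div G_cont fun r => (G_pos r).ne'

lemma hasDerivAt_Phi (s : ℝ) : HasDerivAt Phi (1 / G s) s :=
  intervalIntegral.integral_hasDerivAt_right (invG_cont.intervalIntegrable _ _)
    (invG_cont.stronglyMeasurableAtFilter _ _) invG_cont.continuousAt

/-- the dominating function -/
noncomputable def P (s : ℝ) : ℝ := |sin s| ^ (-(1 / 2) : ℝ)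

lemma P_periodic : Function.Periodic P π := by
  intro s
  unfold P
  rw [sin_add_pi, abs_neg]

lemma P_int_half : IntervalIntegrable P volume 0 (π / 2) := by
  have h1 : IntervalIntegrable (fun s : ℝ => (2 / π) ^ (-(1 / 2) : ℝ) * s ^ (-(1 / 2) : ℝ))
      volume 0 (π / 2) :=
    (intervalIntegral.intervalIntegrable_rpow' (by norm_num)).const_mul _
  refine h1.mono_fun ?_ ?_
  · have : Measurable P := by unfold P; fun_prop
    exact this.aestronglyMeasurable
  · rw [uIoc_of_le (by positivity)]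
    refine (ae_restrict_iff' measurableSet_Ioc).2 (Filter.Eventually.of_forall fun s hs => ?_)
    have hs0 : 0 < s := hs.1
    have h2 := mul_le_sin hs0.le hs.2
    have h3 : 0 < 2 / π * s := by positivity
    have h4 : 0 < sin s := lt_of_lt_of_le h3 h2
    show ‖|sin s| ^ (-(1 / 2) : ℝ)‖ ≤ ‖(2 / π) ^ (-(1 / 2) : ℝ) * s ^ (-(1 / 2) : ℝ)‖
    rw [abs_of_pos h4, Real.norm_eq_abs, Real.norm_eq_abs, ← Real.mul_rpow (by positivity) hs0.le,
      abs_of_nonneg (by positivity), abs_of_nonneg (by positivity)]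
    exact Real.rpow_le_rpow_of_nonpos h3 h2 (by norm_num)

lemma P_int : IntervalIntegrable P volume 0 π := by
  have h1 := P_int_half
  have h2 : IntervalIntegrable P volume (π / 2) π := by
    have h3 := (h1.comp_sub_left π).symm
    have e : (fun x => P (π - x)) = P := by
      funext x
      unfold P
      rw [sin_pi_sub]
    rw [e] at h3
    have e2 : π - π / 2 = π / 2 := by ring
    rw [e2, sub_zero] at h3
    exact h3
  exact h1.trans h2

lemma P_int' (a b : ℝ) : IntervalIntegrable P volume a b :=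
  P_periodic.intervalIntegrable₀ pi_ne_zero P_int a b

lemma invG_le_P : ∀ᵐ s : ℝ, 1 / G s ≤ P s := by
  have h : ∀ᵐ s : ℝ, sin s ≠ 0 := by
    have hc : (sin ⁻¹' {0}).Countable := by
      have : sin ⁻¹' {0} = Set.range (fun n : ℤ => (n : ℝ) * π) := by
        ext s
        simp only [mem_preimage, mem_singleton_iff, mem_range]
        exact Real.sin_eq_zero_iff
      rw [this]
      exact Set.countable_range _
    have := hc.measure_zero volume
    exact measure_mono_null (fun s hs => by simpa using hs) this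
  filter_upwards [h] with s hs
  have h1 : 0 < |sin s| := abs_pos.2 hs
  have h2 : √|sin s| ≤ G s := by
    unfold G
    have := exp_pos s
    have : 0 ≤ exp s / (1 + exp s) := by positivity
    linarith
  have h3 : 0 < √|sin s| := Real.sqrt_pos.2 h1
  have h4 : P s = 1 / √|sin s| := by
    unfold P
    rw [Real.rpow_neg h1.le, Real.sqrt_eq_rpow, one_div, one_div]
  rw [h4]
  exact one_div_le_one_div_of_le h3 h2

/-- integral of `P` over a period -/
noncomputable def C0 : ℝ := ∫ s in (0 : ℝ)..π, P s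

lemma Phi_sub (a b : ℝ) : Phi b - Phi a = ∫ r in a..b, 1 / G r := by
  unfold Phi
  exact intervalIntegral.integral_interval_sub_left (invG_cont.intervalIntegrable _ _)
    (invG_cont.intervalIntegrable _ _)

lemma Phi_period (c : ℝ) : Phi (c + π) - Phi c ≤ C0 := by
  rw [Phi_sub]
  calc ∫ r in c..(c + π), 1 / G r ≤ ∫ r in c..(c + π), P r := by
        apply intervalIntegral.integral_mono_ae (by have := pi_pos; linarith)
          (invG_cont.intervalIntegrable _ _) (P_int' _ _)
        exact invG_le_P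
    _ = ∫ r in (0 : ℝ)..(0 + π), P r := P_periodic.intervalIntegral_add_eq c 0
    _ = C0 := by rw [zero_add]; rfl

lemma C0_nonneg : 0 ≤ C0 := by
  unfold C0
  apply intervalIntegral.integral_nonneg pi_pos.le
  intro s _
  unfold P
  positivity

lemma Phi_mono : Monotone Phi := by
  apply monotone_of_deriv_nonneg
  · exact fun s => (hasDerivAt_Phi s).differentiableAt
  · intro s
    rw [(hasDerivAt_Phi s).deriv]
    have := G_pos s
    positivity

lemma Phi_bound (a b : ℝ) (hab : a ≤ b) : Phi b - Phi a ≤ C0 * ((b - a) / π + 1) := by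
  have h1 : ∀ N : ℕ, Phi (a + N * π) - Phi a ≤ N * C0 := by
    intro N
    induction N with
    | zero => simp
    | succ N ih =>
      have h2 := Phi_period (a + N * π)
      have e : a + ((N + 1 : ℕ) : ℝ) * π = a + N * π + π := by push_cast; ring
      rw [e]
      push_cast
      linarith
  set N := ⌈(b - a) / π⌉₊ with hN
  have h2 : (b - a) / π ≤ N := Nat.le_ceil _
  have h3 : (N : ℝ) < (b - a) / π + 1 := Nat.ceil_lt_add_one (div_nonneg (by linarith) pi_pos.le)
  have h4 : b ≤ a + N * π := by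
    rw [div_le_iff₀ pi_pos] at h2
    linarith
  have h5 := Phi_mono h4
  have h6 := h1 N
  have h7 : N * C0 ≤ C0 * ((b - a) / π + 1) := by
    rw [mul_comm]
    exact mul_le_mul_of_nonneg_left h3.le C0_nonneg
  linarith

/-! ### Decay of solutions of `y' = - y g(y)` -/

/-- the rate -/
noncomputable def rate : ℝ := 1 / (C0 / π + 1)

lemma rate_pos : 0 < rate := by
  unfold rate
  have := C0_nonneg
  have := pi_pos
  positivity

lemma scalar_decay (y : ℝ → ℝ) (t₀ t₁ : ℝ) (ht : t₀ ≤ t₁) (hc : ContinuousOn y (Icc t₀ t₁))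
    (hd : ∀ t ∈ Ioo t₀ t₁, HasDerivAt y (-(y t * g (y t))) t) :
    |y t₁| ≤ exp (C0 * rate) * |y t₀| * exp (-rate * (t₁ - t₀)) := by
  have hmem0 : t₀ ∈ Icc t₀ t₁ := ⟨le_rfl, ht⟩
  have hmem1 : t₁ ∈ Icc t₀ t₁ := ⟨ht, le_rfl⟩
  -- monotonicity
  have hanti : AntitoneOn (fun t => y t ^ 2) (Icc t₀ t₁) := by
    apply antitoneOn_of_deriv_nonpos (convex_Icc _ _) (hc.pow 2)
    · rw [interior_Icc]
      exact fun t ht => ((hd t ht).pow 2).differentiableAt.differentiableWithinAt
    · rw [interior_Icc]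
      intro t ht
      rw [((hd t ht).pow 2).deriv]
      have := g_nonneg (y t)
      push_cast
      nlinarith [mul_nonneg (sq_nonneg (y t)) this]
  have hmono : MonotoneOn (fun t => y t ^ 2 * exp (4 * t)) (Icc t₀ t₁) := by
    have hD : ∀ t ∈ Ioo t₀ t₁, HasDerivAt (fun t => y t ^ 2 * exp (4 * t))
        ((2 * y t ^ 1 * (-(y t * g (y t)))) * exp (4 * t) + y t ^ 2 * (exp (4 * t) * 4)) t := by
      intro t ht
      have h1 : HasDerivAt (fun t : ℝ => 4 * t) 4 t := by
        simpa using (hasDerivAt_id t).const_mul (4 : ℝ)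
      have h2 : HasDerivAt (fun t => y t ^ 2 * exp (4 * t)) _ t := ((hd t ht).pow 2).mul h1.exp
      refine h2.congr_deriv ?_
      simp only [Pi.pow_apply]
      push_cast
      ring
    apply monotoneOn_of_deriv_nonneg (convex_Icc _ _)
    · apply (hc.pow 2).mul
      exact Continuous.continuousOn (by fun_prop)
    · rw [interior_Icc]
      exact fun t ht => (hD t ht).differentiableAt.differentiableWithinAt
    · rw [interior_Icc]
      intro t ht
      rw [(hD t ht).deriv]
      have h1 := g_le (y t)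
      have h2 := exp_pos (4 * t)
      have e : (2 * y t ^ 1 * (-(y t * g (y t)))) * exp (4 * t) + y t ^ 2 * (exp (4 * t) * 4) =
          2 * (y t ^ 2 * exp (4 * t)) * (2 - g (y t)) := by ring
      rw [e]
      have : 0 ≤ 2 - g (y t) := by linarith
      positivity
  by_cases hy0 : y t₀ = 0
  · have h1 := hanti hmem0 hmem1 ht
    simp only [hy0] at h1
    have h2 : y t₁ = 0 := by
      have : y t₁ ^ 2 ≤ 0 := by simpa using h1
      have h3 : y t₁ ^ 2 = 0 := le_antisymm this (sq_nonneg _)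
      exact pow_eq_zero_iff (two_ne_zero) |>.1 h3
    rw [h2, hy0]
    simp
  · have hne : ∀ t ∈ Icc t₀ t₁, y t ≠ 0 := by
      intro t htt h0
      have h1 := hmono hmem0 htt htt.1
      simp only [h0] at h1
      have h2 : 0 < y t₀ ^ 2 * exp (4 * t₀) := by
        have := exp_pos (4 * t₀)
        positivity
      have h3 : (0 : ℝ) ^ 2 * exp (4 * t) = 0 := by ring
      rw [h3] at h1
      linarith
    have hs : AntitoneOn (fun t => Phi (log (y t)) + t) (Icc t₀ t₁) := by
      have hD : ∀ t ∈ Ioo t₀ t₁, HasDerivAt (fun t => Phi (log (y t)) + t) 0 t := by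
        intro t ht
        have hyt := hne t ⟨ht.1.le, ht.2.le⟩
        have h1 := (hd t ht).log hyt
        have h2 := (hasDerivAt_Phi (log (y t))).comp t h1
        have h3 := h2.add (hasDerivAt_id t)
        have e : 1 / G (log (y t)) * (-(y t * g (y t)) / y t) + 1 = 0 := by
          rw [g_eq (y t) hyt]
          have := (G_pos (log (y t))).ne'
          field_simp
          ring
        rw [e] at h3
        exact h3
      apply antitoneOn_of_deriv_nonpos (convex_Icc _ _)
      · apply ContinuousOn.add _ continuousOn_id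
        have hPc : Continuous Phi := continuous_iff_continuousAt.2 fun s =>
          (hasDerivAt_Phi s).continuousAt
        exact hPc.comp_continuousOn (hc.log hne)
      · rw [interior_Icc]
        exact fun t ht => (hD t ht).differentiableAt.differentiableWithinAt
      · rw [interior_Icc]
        intro t ht
        rw [(hD t ht).deriv]
    have h1 := hs hmem0 hmem1 ht
    simp only at h1
    have h2 : log (y t₁) ≤ log (y t₀) := by
      rw [← Real.log_abs (y t₁), ← Real.log_abs (y t₀)]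
      apply Real.log_le_log (abs_pos.2 (hne t₁ hmem1))
      exact sq_le_sq.1 (hanti hmem0 hmem1 ht)
    have h3 := Phi_bound _ _ h2
    have hr := rate_pos
    have hC := C0_nonneg
    have hpi := pi_pos
    have h4 : t₁ - t₀ ≤ C0 * ((log (y t₀) - log (y t₁)) / π + 1) := by linarith
    have h5 : t₁ - t₀ ≤ (C0 / π + 1) * (log (y t₀) - log (y t₁)) + C0 := by
      have : C0 * ((log (y t₀) - log (y t₁)) / π + 1) =
          C0 / π * (log (y t₀) - log (y t₁)) + C0 := by ring
      rw [this] at h4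
      nlinarith
    have h6 : rate * (t₁ - t₀) ≤ (log (y t₀) - log (y t₁)) + C0 * rate := by
      have h7 := mul_le_mul_of_nonneg_left h5 hr.le
      have h8 : rate * (C0 / π + 1) = 1 := by
        unfold rate
        have : C0 / π + 1 ≠ 0 := by positivity
        field_simp
      calc rate * (t₁ - t₀) ≤ _ := h7
        _ = (rate * (C0 / π + 1)) * (log (y t₀) - log (y t₁)) + C0 * rate := by ring
        _ = _ := by rw [h8, one_mul]
    have h9 : log (y t₁) ≤ log (y t₀) + C0 * rate - rate * (t₁ - t₀) := by linarith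
    have e1 : |y t₁| = exp (log (y t₁)) := by
      rw [← Real.log_abs, exp_log (abs_pos.2 (hne t₁ hmem1))]
    have e0 : |y t₀| = exp (log (y t₀)) := by
      rw [← Real.log_abs, exp_log (abs_pos.2 hy0)]
    rw [e1, e0, ← exp_add, ← exp_add]
    apply exp_le_exp.2
    linarith

/-! ### From absolutely continuous solutions to classical ones -/

lemma classical (y H : ℝ → ℝ) (t₀ t₁ : ℝ) (ht : t₀ ≤ t₁)
    (hy : AbsolutelyContinuousOnInterval y t₀ t₁) (hH : ContinuousOn H (Icc t₀ t₁))
    (hd : ∀ᵐ t : ℝ, t₀ < t → t < t₁ → HasDerivAt y (H t) t) :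
    ∀ t ∈ Ioo t₀ t₁, HasDerivAt y (H t) t := by
  have hne : ∀ᵐ t : ℝ, t ≠ t₁ := by
    have := (Set.countable_singleton t₁).measure_zero volume
    exact measure_mono_null (fun s hs => by simpa using hs) this
  have hint : ∀ t ∈ Icc t₀ t₁, y t = y t₀ + ∫ r in t₀..t, H r := by
    intro t htt
    have h1 : AbsolutelyContinuousOnInterval y t₀ t := by
      apply hy.mono
      rw [uIcc_of_le htt.1, uIcc_of_le ht]
      exact Icc_subset_Icc le_rfl htt.2
    have h2 := h1.integral_deriv_eq_sub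
    have h3 : ∫ r in t₀..t, deriv y r = ∫ r in t₀..t, H r := by
      apply intervalIntegral.integral_congr_ae
      filter_upwards [hd, hne] with r hr hr1 hrt
      rw [uIoc_of_le htt.1] at hrt
      exact (hr hrt.1 (lt_of_le_of_ne (hrt.2.trans htt.2) hr1)).deriv
    rw [h3] at h2
    linarith
  intro t htt
  have htI : t ∈ Icc t₀ t₁ := ⟨htt.1.le, htt.2.le⟩
  have hHt : ContinuousAt H t := (hH t htI).continuousAt (Icc_mem_nhds htt.1 htt.2)
  have h1 : HasDerivAt (fun u => ∫ r in t₀..u, H r) (H t) t := by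
    apply intervalIntegral.integral_hasDerivAt_right
    · apply ContinuousOn.intervalIntegrable
      rw [uIcc_of_le htt.1.le]
      exact hH.mono (Icc_subset_Icc le_rfl htt.2.le)
    · exact (hH.mono Ioo_subset_Icc_self).stronglyMeasurableAtFilter isOpen_Ioo t htt
    · exact hHt
  have h2 := h1.const_add (y t₀)
  apply h2.congr_of_eventuallyEq
  filter_upwards [Icc_mem_nhds htt.1 htt.2] with u hu
  exact hint u hu

lemma norm_fin_one (x : EuclideanSpace ℝ (Fin 1)) : ‖x‖ = |x 0| := by
  rw [EuclideanSpace.norm_eq]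
  simp [Real.sqrt_sq_eq_abs]

lemma ac_coord (x : ℝ → EuclideanSpace ℝ (Fin 1)) (a b : ℝ)
    (h : AbsolutelyContinuousOnInterval x a b) :
    AbsolutelyContinuousOnInterval (fun t => x t 0) a b := by
  rw [absolutelyContinuousOnInterval_iff] at h ⊢
  intro ε hε
  obtain ⟨δ, hδ, hE⟩ := h ε hε
  refine ⟨δ, hδ, fun E hEE hsum => lt_of_le_of_lt ?_ (hE E hEE hsum)⟩
  refine Finset.sum_le_sum fun i _ => ?_
  rw [dist_eq_norm, dist_eq_norm, norm_fin_one]
  rfl

/-- coefficients of `p(s) = s - 1` -/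
def p1 : Fin 1 → ℝ := fun _ => -1

/-- coefficients of `q(s) = 1` -/
def q1 : Fin 1 → ℝ := fun _ => 1

lemma rhs_coord (f : ℝ → ℝ) (t : ℝ) (x : EuclideanSpace ℝ (Fin 1)) :
    rhs p1 q1 (fun _ => 1) phi f t x = WithLp.toLp 2 (fun _ => x 0 - phi (x 0) + f t) := by
  unfold rhs
  congr 1
  funext i
  have hi : i = 0 := Subsingleton.elim _ _
  subst hi
  simp [companion, bvec, p1, q1, Matrix.mulVec, dotProduct]

lemma hasDerivAt_coord {x : ℝ → EuclideanSpace ℝ (Fin 1)} {v : EuclideanSpace ℝ (Fin 1)} {t : ℝ}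
    (h : HasDerivAt x v t) : HasDerivAt (fun t => x t 0) (v 0) t := by
  have := (EuclideanSpace.proj (𝕜 := ℝ) (0 : Fin 1)).hasFDerivAt.comp_hasDerivAt t h
  exact this

/-- the unforced system is exponentially stable -/
lemma expStable : ExpStable p1 q1 (fun _ => 1) phi := by
  refine ⟨rate, exp (C0 * rate), rate_pos, exp_pos _, ?_⟩
  intro t₀ T x _ hT hsol t ht0 htT
  rw [norm_fin_one, norm_fin_one]
  rcases eq_or_lt_of_le ht0 with rfl | hlt
  · rw [sub_self, mul_zero, exp_zero, mul_one]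
    apply le_mul_of_one_le_left (abs_nonneg _)
    rw [← exp_zero]
    apply exp_le_exp.2
    have := C0_nonneg
    have := rate_pos
    positivity
  · set y : ℝ → ℝ := fun t => x t 0 with hy
    have hac : AbsolutelyContinuousOnInterval y t₀ t := ac_coord x t₀ t (hsol.1 t hlt htT).1
    have hcy : ContinuousOn y (Icc t₀ t) := by
      have := hac.continuousOn
      rwa [uIcc_of_le ht0] at this
    have hcl := classical y (fun r => y r - phi (y r)) t₀ t ht0 hac
      (hcy.sub (phi_cont.comp_continuousOn hcy)) (by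
        filter_upwards [hsol.2] with r hr hr0 hr1
        have h1 := hasDerivAt_coord (hr hr0 (lt_trans (by exact_mod_cast hr1) htT))
        rw [rhs_coord] at h1
        simpa using h1)
    apply scalar_decay y t₀ t ht0 hcy
    intro r hr
    have h1 := hcl r hr
    have e : y r - phi (y r) = -(y r * g (y r)) := by unfold phi; ring
    rwa [e] at h1

/-- the forced system is not `L₂`-stable -/
lemma not_l2Stable : ¬ L2Stable p1 q1 (fun _ => 1) phi := by
  intro h
  obtain ⟨η₃, hη⟩ := h 2 2 (by norm_num) (by norm_num)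
  -- choose `j`
  obtain ⟨j, hj⟩ := exists_nat_gt (|η₃| + 1)
  set a : ℝ := exp (-(j * π)) with ha
  have ha0 : 0 < a := exp_pos _
  have ha1 : a ≤ 1 := by
    rw [ha, ← exp_zero]
    apply exp_le_exp.2
    have : 0 ≤ (j : ℝ) * π := by positivity
    linarith
  set ga : ℝ := g a with hga
  have hgaval : ga = a / (1 + a) := by
    rw [hga]
    unfold g
    have h1 : sin (log a) = 0 := by
      rw [ha, log_exp, sin_neg, sin_nat_mul_pi, neg_zero]
    rw [h1, abs_zero, Real.sqrt_zero, zero_add, abs_of_pos ha0]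
  have hga0 : 0 < ga := by rw [hgaval]; positivity
  have hgale : ga ≤ a := by
    rw [hgaval, div_le_iff₀ (by positivity)]
    nlinarith
  set T : ℝ := 1 / (a * ga) ^ 2 with hT
  have hT0 : 0 < T := by positivity
  set f : ℝ → ℝ := (Ico 0 T).indicator (fun _ => a * ga) with hf
  set x : ℝ → EuclideanSpace ℝ (Fin 1) := fun _ => WithLp.toLp 2 (fun _ => a) with hx
  have hsol : IsSol p1 q1 (fun _ => 1) phi f 0 (T : EReal) x := by
    refine ⟨fun t₁ _ _ => ⟨?_, ?_⟩, ?_⟩
    · rw [absolutelyContinuousOnInterval_iff]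
      intro ε hε
      refine ⟨1, one_pos, fun E _ _ => ?_⟩
      simp [hx, hε]
    · show IntervalIntegrable (fun _ : ℝ => phi (q1 ⬝ᵥ (WithLp.toLp 2 (fun _ => a) :
        EuclideanSpace ℝ (Fin 1)).ofLp)) volume 0 t₁
      exact (continuous_const : Continuous fun _ : ℝ => phi (q1 ⬝ᵥ (WithLp.toLp 2 (fun _ => a) :
        EuclideanSpace ℝ (Fin 1)).ofLp)).intervalIntegrable 0 t₁
    · refine Filter.Eventually.of_forall fun t ht0 htT => ?_
      have htT' : t < T := by exact_mod_cast htT
      have hft : f t = a * ga := by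
        rw [hf, Set.indicator_of_mem (show t ∈ Ico 0 T from ⟨ht0.le, htT'⟩)]
      have e : rhs p1 q1 (fun _ => 1) phi f t (x t) = 0 := by
        rw [rhs_coord, hft]
        have : (fun _ : Fin 1 => (x t) 0 - phi ((x t) 0) + a * ga) = 0 := by
          funext i
          show a - phi a + a * ga = 0
          unfold phi
          rw [← hga]
          ring
        rw [this]
        rfl
      rw [e]
      exact hasDerivAt_const t _
  have hnorm : ∀ t, ‖x t‖ = a := fun t => by
    rw [norm_fin_one]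
    exact abs_of_pos ha0
  have hfm : Measurable f := measurable_const.indicator measurableSet_Ico
  have hfint : ∫⁻ t in Ici (0 : ℝ), ENNReal.ofReal (f t ^ 2) < ENNReal.ofReal 2 := by
    have h1 : ∀ t, ENNReal.ofReal (f t ^ 2) =
        (Ico 0 T).indicator (fun _ => ENNReal.ofReal ((a * ga) ^ 2)) t := by
      intro t
      rw [hf]
      by_cases ht : t ∈ Ico 0 T
      · rw [Set.indicator_of_mem ht, Set.indicator_of_mem ht]
      · rw [Set.indicator_of_notMem ht, Set.indicator_of_notMem ht]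
        simp
    have h2 : ∫⁻ t in Ici (0 : ℝ), ENNReal.ofReal (f t ^ 2) ≤
        ∫⁻ t, ENNReal.ofReal (f t ^ 2) := setLIntegral_le_lintegral _ _
    refine lt_of_le_of_lt h2 ?_
    simp_rw [h1]
    rw [lintegral_indicator measurableSet_Ico, setLIntegral_const, Real.volume_Ico, sub_zero,
      ← ENNReal.ofReal_mul (by positivity)]
    have e : (a * ga) ^ 2 * T = 1 := by
      rw [hT]
      field_simp
    rw [e]
    exact (ENNReal.ofReal_lt_ofReal_iff (by norm_num)).2 (by norm_num)
  have hmain := hη 0 (T : EReal) f x le_rfl (by exact_mod_cast hT0) hfm hsol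
    (by rw [hnorm 0]; linarith) hfint
  have hset : {t : ℝ | (0 : ℝ) ≤ t ∧ (t : EReal) < (T : EReal)} = Ico 0 T := by
    ext t
    simp only [mem_ofPred_eq, mem_Ico, EReal.coe_lt_coe_iff]
  simp_rw [hnorm] at hmain
  rw [hset, setLIntegral_const, Real.volume_Ico, sub_zero, ← ENNReal.ofReal_mul (by positivity)]
    at hmain
  have e : a ^ 2 * T = 1 / ga ^ 2 := by
    rw [hT]
    field_simp
  rw [e] at hmain
  have hpos : 0 < 1 / ga ^ 2 := by positivity
  have h3 : 1 / ga ^ 2 ≤ η₃ := by
    by_contra hcon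
    push Not at hcon
    have : ENNReal.ofReal η₃ < ENNReal.ofReal (1 / ga ^ 2) :=
      (ENNReal.ofReal_lt_ofReal_iff hpos).2 hcon
    exact absurd hmain (not_le.2 this)
  -- `1 / ga² ≥ 1 / a² ≥ e^{jπ} ≥ j`
  have h4 : (j : ℝ) ≤ 1 / a := by
    rw [ha, exp_neg, one_div, inv_inv]
    have h5 := add_one_le_exp ((j : ℝ) * π)
    have h6 : (j : ℝ) ≤ j * π := by
      have := pi_gt_three
      have hj0 : (0 : ℝ) ≤ j := Nat.cast_nonneg j
      nlinarith
    linarith
  have h5 : 1 / a ≤ 1 / ga ^ 2 := by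
    apply one_div_le_one_div_of_le (by positivity)
    have h6 : ga ^ 2 ≤ a ^ 2 := pow_le_pow_left₀ hga0.le hgale 2
    nlinarith
  have h6 := le_abs_self η₃
  linarith

/-- **Q1 is false.** There are `p, q`, an admissible `k` and a continuous `φ` satisfying the sector
condition such that the null solution of the unforced system is exponentially stable but the
forced system is not `L₂`-stable. -/
theorem result : ∃ (n m : ℕ) (p q : Fin n → ℝ) (k φ : ℝ → ℝ), m < n ∧
    (∀ j : Fin n, m < (j : ℕ) → q j = 0) ∧ AdmissibleK k ∧ Sector φ ∧ Continuous φ ∧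
    ExpStable p q k φ ∧ ¬ L2Stable p q k φ := by
  refine ⟨1, 0, p1, q1, fun _ => 1, phi, by norm_num, ?_, ?_, ?_, phi_cont, expStable,
    not_l2Stable⟩
  · intro j hj
    have := j.2
    omega
  · refine ⟨⟨1, one_pos, fun _ _ => le_rfl⟩, fun t₁ _ => ?_⟩
    rw [absolutelyContinuousOnInterval_iff]
    intro ε hε
    refine ⟨1, one_pos, fun E _ _ => ?_⟩
    simp [hε]
  · refine ⟨by simp [phi], 1, 3, one_pos, by norm_num, fun σ _ => ?_⟩
    have h1 := g_nonneg σ
    have h2 := g_le σ
    have h3 := sq_nonneg σ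
    have e : σ * phi σ = σ ^ 2 * (1 + g σ) := by unfold phi; ring
    rw [e]
    constructor
    · nlinarith
    · nlinarith

end Pool.Agent.Results.MP_d56d33_an.NotEquivalent
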